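import Pool.Agent.helper22.GS.Spec

set_option autoImplicit false

namespace Pool.Agent.GS

open Module

/-- The inductive step: from orthogonal bases of `v^⊥` to orthogonal bases of `W`. -/
theorem DG_step (hCM : CM_stmt) {F W ι : Type} [Field F] [Finite F] [AddCommGroup W] [Module F W]
    [FiniteDimensional F W] [Fintype ι] [DecidableEq ι] (b : LinearMap.BilinForm F W)
    (hb : Sym b) (β : Basis ι F W) (c : ι → F) (hc : ∀ i, c i ≠ 0)
    (hsq : IsSquare (dt b β * ∏ i, c i)) (i₀ : ι) (v : W) (hv : b v v = c i₀)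
    (IH : ∀ (W' : Submodule F W), Sym (b.domRestrict₁₂ W' W') → finrank F W' + 1 = finrank F W →
      ∀ γ : Basis {i : ι // i ≠ i₀} F W',
      IsSquare (dt (b.domRestrict₁₂ W' W') γ * ∏ i : {i : ι // i ≠ i₀}, c i) →
      ∃ u : Basis {i : ι // i ≠ i₀} F W', Orth (b.domRestrict₁₂ W' W') u (fun i => c i)) :
    ∃ u : Basis ι F W, Orth b u c ∧ u i₀ = v := by
  have hvv : b v v ≠ 0 := by rw [hv]; exact hc i₀
  obtain ⟨W', hW', hS, hfr, hdt⟩ := hCM b hb β v hvv
  have hcard : Fintype.card {i : ι // i ≠ i₀} = finrank F W' := by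
    have h1 : Fintype.card {i : ι // i ≠ i₀} = Fintype.card ι - 1 := by
      rw [Fintype.card_subtype_compl, Fintype.card_subtype_eq]
    have h2 : Fintype.card ι = finrank F W := (finrank_eq_card_basis β).symm
    omega
  obtain ⟨γ⟩ : Nonempty (Basis {i : ι // i ≠ i₀} F W') :=
    ⟨(finBasis F W').reindex (Fintype.equivOfCardEq (by rw [Fintype.card_fin, hcard]))⟩
  obtain ⟨hd0, hd⟩ := hdt {i : ι // i ≠ i₀} γ
  have hprod : ∏ i, c i = c i₀ * ∏ i : {i : ι // i ≠ i₀}, c i := by
    rw [← Finset.mul_prod_erase Finset.univ _ (Finset.mem_univ i₀)]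
    congr 1
    rw [← Finset.prod_subtype (Finset.univ.erase i₀) (p := fun i => i ≠ i₀) (by simp)]
  have hsq' : IsSquare (dt (b.domRestrict₁₂ W' W') γ * ∏ i : {i : ι // i ≠ i₀}, c i) := by
    obtain ⟨x, hx⟩ := hsq
    obtain ⟨y, hy⟩ := hd
    rw [hv] at hy
    rw [hprod] at hx
    have hc0 := hc i₀
    refine ⟨x * y / (dt b β * c i₀), ?_⟩
    have : x * y / (dt b β * c i₀) * (x * y / (dt b β * c i₀)) =
        (x * x) * (y * y) / ((dt b β * c i₀) * (dt b β * c i₀)) := by
      field_simp
    rw [this, ← hx, ← hy]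
    field_simp
  obtain ⟨u', hu'⟩ := IH W' hS hfr γ hsq'
  let f : ι → W := fun i => if h : i = i₀ then v else (u' ⟨i, h⟩ : W)
  have hf0 : f i₀ = v := by simp [f]
  have hf1 : ∀ i : {i : ι // i ≠ i₀}, f i = (u' i : W) := by
    intro i
    simp only [f]
    rw [dif_neg i.2]
  have horth : Orth b f c := by
    intro i j
    by_cases hi : i = i₀
    · by_cases hj : j = i₀
      · subst hi; subst hj
        rw [if_pos rfl, hf0, hv]
      · subst hi
        rw [if_neg (fun h => hj h.symm), hf0, hf1 ⟨j, hj⟩]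
        exact (hW' _).1 (u' ⟨j, hj⟩).2
    · by_cases hj : j = i₀
      · subst hj
        rw [if_neg hi, hf0, hf1 ⟨i, hi⟩, hb.symm]
        exact (hW' _).1 (u' ⟨i, hi⟩).2
      · have := hu' ⟨i, hi⟩ ⟨j, hj⟩
        rw [hf1 ⟨i, hi⟩, hf1 ⟨j, hj⟩]
        have e : (b.domRestrict₁₂ W' W') (u' ⟨i, hi⟩) (u' ⟨j, hj⟩) =
          b (u' ⟨i, hi⟩ : W) (u' ⟨j, hj⟩ : W) := rfl
        rw [← e, this]
        by_cases hij : i = j
        · subst hij; simp
        · rw [if_neg hij, if_neg (fun h => hij (congrArg Subtype.val h))]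
  have hli : LinearIndependent F f := by
    rw [Fintype.linearIndependent_iff]
    intro g hg i
    have h1 : b (∑ j, g j • f j) (f i) = 0 := by rw [hg]; simp
    rw [map_sum, LinearMap.sum_apply] at h1
    simp only [map_smul, LinearMap.smul_apply, smul_eq_mul, horth _ i] at h1
    simp only [mul_ite, mul_zero] at h1
    rw [Finset.sum_ite_eq' Finset.univ i] at h1
    simp only [Finset.mem_univ, if_true] at h1
    exact (mul_eq_zero.1 h1).resolve_right (hc i)
  have hcardι : Fintype.card ι = finrank F W := (finrank_eq_card_basis β).symm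
  have : Nonempty ι := ⟨i₀⟩
  refine ⟨basisOfLinearIndependentOfCardEqFinrank hli hcardι, ?_, ?_⟩
  · rw [coe_basisOfLinearIndependentOfCardEqFinrank]; exact horth
  · rw [coe_basisOfLinearIndependentOfCardEqFinrank]; exact hf0

/-- First part, by induction on the dimension. -/
theorem DG_first (hUN : UN_stmt) (hCM : CM_stmt) (d : ℕ) : ∀ {F W ι : Type} [Field F] [Finite F]
    [AddCommGroup W] [Module F W]
    [FiniteDimensional F W] [Fintype ι] [DecidableEq ι] (b : LinearMap.BilinForm F W),
    finrank F W = d → ringChar F ≠ 2 → Sym b → ∀ (β : Basis ι F W) (c : ι → F), (∀ i, c i ≠ 0) →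
    IsSquare (dt b β * ∏ i, c i) → ∃ u : Basis ι F W, Orth b u c := by
  induction d with
  | zero =>
    intro F W ι _ _ _ _ _ _ _ b hd hch hb β c hc hsq
    have hcard : Fintype.card ι = 0 := by rw [← hd, finrank_eq_card_basis β]
    have := Fintype.card_eq_zero_iff.1 hcard
    exact ⟨β, fun i => isEmptyElim i⟩
  | succ d ih =>
    intro F W ι _ _ _ _ _ _ _ b hd hch hb β c hc hsq
    have hcardι : Fintype.card ι = finrank F W := (finrank_eq_card_basis β).symm
    have hpos : 0 < Fintype.card ι := by omega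
    obtain ⟨i₀⟩ := Fintype.card_pos_iff.1 hpos
    have hex : ∃ v, b v v = c i₀ := by
      by_cases h2 : 2 ≤ finrank F W
      · exact hUN b hch hb h2 (c i₀) (hc i₀)
      · have h1 : Fintype.card ι = 1 := by omega
        letI : Unique ι := ⟨⟨i₀⟩, fun x => (Fintype.card_le_one_iff.1 h1.le) x i₀⟩
        have hdef : (default : ι) = i₀ := rfl
        have hdt1 : dt b β = b (β i₀) (β i₀) := by
          unfold dt
          rw [Matrix.det_unique]
          rfl
        have hp : ∏ i, c i = c i₀ := by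
          rw [Fintype.prod_unique, hdef]
        rw [hdt1, hp] at hsq
        obtain ⟨x, hx⟩ := hsq
        have hb0 : b (β i₀) (β i₀) ≠ 0 := by
          intro h0
          have hz : β i₀ = 0 := by
            refine hb.nd _ fun y => ?_
            have hy : y = β.repr y i₀ • β i₀ := by
              conv_lhs => rw [← β.sum_repr y]
              rw [Fintype.sum_unique, hdef]
            rw [hy, map_smul, h0, smul_zero]
          exact β.ne_zero i₀ hz
        refine ⟨(x / b (β i₀) (β i₀)) • β i₀, ?_⟩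
        rw [map_smul, map_smul, LinearMap.smul_apply, smul_eq_mul, smul_eq_mul]
        have : x / b (β i₀) (β i₀) * (x / b (β i₀) (β i₀) * b (β i₀) (β i₀)) =
          x * x / b (β i₀) (β i₀) := by field_simp
        rw [this, ← hx]
        field_simp
    obtain ⟨v, hv⟩ := hex
    obtain ⟨u, hu, _⟩ := DG_step hCM b hb β c hc hsq i₀ v hv (by
      intro W' hS hfr γ hsq'
      exact ih (b.domRestrict₁₂ W' W') (by omega) hch hS γ (fun i => c i) (fun i => hc i) hsq')
    exact ⟨u, hu⟩

theorem DG (hUN : UN_stmt) (hCM : CM_stmt) : DG_stmt := by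
  intro F W ι _ _ _ _ _ _ _ b hch hb β c hc hsq
  refine ⟨DG_first hUN hCM _ b rfl hch hb β c hc hsq, ?_⟩
  intro i₀ v hv
  exact DG_step hCM b hb β c hc hsq i₀ v hv (by
      intro W' hS hfr γ hsq'
      exact DG_first hUN hCM _ (b.domRestrict₁₂ W' W') rfl hch hS γ (fun i => c i)
        (fun i => hc i) hsq')

end Pool.Agent.GS
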