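import Pool.Agent.helper22.GS.Spec

set_option autoImplicit false

namespace Pool.Agent.GS

open Module

theorem THA (hTHE : THE_stmt) (hTHO : THO_stmt) : THA_stmt := by
  intro F _ _ r m τ hr hr2 hD hm hτ
  rcases Nat.even_or_odd' m with ⟨k, rfl | rfl⟩
  · exact hTHE r k τ hr hr2 hD hτ
  · exact hTHO r k τ hr hr2 (by omega) hD hτ

end Pool.Agent.GS
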